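import Pool.Agent.Results.MP_e573c6_ag.PartialNumberFields
import Pool.Agent.X134.Win.MembI

/-!
# MP_e573c6_ag: the Zilber-Pink conjecture for all the members in short cubes, of all families of curves
in `Y(1)^n` which degenerate along divisors

Let `q ≥ 1` and `r` be fixed, `v ≥ 1` a sequence of exponent of convergence at most `τ` (`τ = 0` for
`v_l = b ^ l`, `τ = 1 / b` for `v_l = (l + 1) ^ b`) and `θ < 1`.

**Theorem.** There is one set `E` of real `q × (r + 1)`-matrices of Hausdorff dimension at most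
`(q (r + 1) - 1 + τ) / (1 - θ)` such that for each matrix `α` outside of `E` the following holds for ALL
families `X_t ⊂ Y(1)^n` (any `n`) of curves with `q` parameters as in our `PartialNumberFields`: there are
divisors `h_s = 0` over the algebraic numbers and sets `I_s` of coordinates such that along `h_s = 0` the
coordinates `x_i`, `i ∈ I_s`, tend to the cusp with arbitrary orders, the generic degenerate curve (after
scaling) being in general position (`DegeneratesOn`), and each set of at most four coordinates is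
contained in one of the `I_s` (for example one divisor along which all coordinates tend to the cusp, or
five divisors, along each of which another coordinate can be finite); for ALL algebraic numbers
`ω_0 ≠ 0, ω_1, …, ω_r` (for example the integral bases of all number fields of degree `r + 1`): for all
large `l`, for ALL integral matrices `u` in the cube with the centre `v_l α` and the side `2 v_l ^ θ` the
curve `X_t` with the parameters `t_j = ∑_b ω_b u_{j b}` satisfies the Zilber-Pink conjecture: it has only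
finitely many points on special subvarieties of codimension at least two, and each proper special
subvariety contains only finitely many of its points.

The set `E` is small (of dimension less than `q (r + 1)`) if `θ q (r + 1) + τ < 1`; then almost all
matrices are outside of `E`, and the cubes contain about `(2 v_l ^ θ) ^ (q (r + 1))` members, without
exception. There are uncountably many families `X_t`, but they are controlled by countably many
degenerating families.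
-/

set_option autoImplicit false

namespace Pool.Agent.Results.MP_e573c6_ag.MembersInCubes

open MeasureTheory Pool.Agent.X295 Pool.Agent.X295.NF

/-- the exponent of convergence of the sequence `v` is at most `τ` -/
def ExpLe (v : ℕ → ℝ) (τ : ℝ) : Prop := ∀ t : ℝ, τ < t → Summable (fun n : ℕ => (v n) ^ (-t))

/-- The coordinates `x_{σ 0}, x_{σ 1}, …` of the family `X_t` tend to the cusp along the divisor
`h = 0`, and the generic degenerate curve (after scaling) is in general position. -/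
def DegeneratesOn {n m q : ℕ} (δ : Parameters q) (X : (Fin q → ℂ) → Set (Fin n → ℂ))
    (h : Parameters q) (σ : Fin m → Fin n) : Prop :=
  ∃ (k : ℕ) (V : Fin k → MvPolynomial (Fin m × Bool) (Parameters q))
    (a g : Fin m → Parameters q) (w : Fin m → ℕ),
    GoodAlong h V ∧ (∀ i, 0 < w i) ∧ (∀ i, ¬ h ∣ a i) ∧ (∀ i, ¬ h ∣ g i) ∧
    ∀ t : Fin q → ℂ, valueAt t δ ≠ 0 → ∀ x ∈ X t,
      (fun i => x (σ i)) ∈ scaledMember V a (fun i => h ^ w i * g i) t

/-- for all families `X` with `q` parameters as in the theorem and all algebraic `ω`: for all large `l`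
all members with integral parameter matrices in the cube with the centre `v_l α` and the side
`2 v_l ^ θ` satisfy the Zilber-Pink conjecture -/
def AllMembers (q r : ℕ) (v : ℕ → ℝ) (α : Fin q × Fin (r + 1) → ℝ) (θ : ℝ) : Prop :=
  ∀ (n P : ℕ) (ω : Fin (r + 1) → algebraicClosure ℚ ℂ), ω 0 ≠ 0 → ∀
    (δ : Parameters q), δ ≠ 0 → ∀ (X : (Fin q → ℂ) → Set (Fin n → ℂ)),
    (∀ t : Fin q → ℂ, valueAt t δ ≠ 0 → ∀ (i : Fin n) (c : ℂ), {x | x ∈ X t ∧ x i = c}.Finite) → ∀
    (h : Fin P → Parameters q), (∀ s, Irreducible (h s)) → ∀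
    (m : Fin P → ℕ) (σ : ∀ s, Fin (m s) → Fin n), (∀ s, Function.Injective (σ s)) →
    (∀ J : Finset (Fin n), J.card ≤ 4 → ∃ s, ∀ i ∈ J, ∃ t, σ s t = i) →
    (∀ s, DegeneratesOn δ X (h s) (σ s)) → ∀
    (Γ : Set ℂ), Γ.Finite → (∀ γ ∈ Γ, IsAlgebraic ℚ γ) →
    ∃ l₀ : ℕ, ∀ l : ℕ, l₀ ≤ l → ∀ u : Fin q → Fin (r + 1) → ℤ,
      (∀ j b, |(u j b : ℝ) - α (j, b) * v l| ≤ (v l) ^ θ) →
        ZilberPink Γ (X (fun j => ∑ b, (ω b : ℂ) * (u j b : ℂ)))

section Proof

theorem countable_alg : Countable (algebraicClosure ℚ ℂ) := by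
  have h1 : {x : ℂ | IsAlgebraic ℚ x}.Countable := Algebraic.countable ℚ ℂ
  have h2 := h1.to_subtype
  refine Function.Injective.countable
    (f := fun x : algebraicClosure ℚ ℂ => (⟨(x : ℂ), ?_⟩ : {x : ℂ | IsAlgebraic ℚ x})) ?_
  · exact mem_algebraicClosure_iff.1 x.2
  · intro x y hxy
    exact Subtype.ext (congrArg (fun z : {x : ℂ | IsAlgebraic ℚ x} => (z : ℂ)) hxy)

/-- the data of a degenerating family -/
abbrev Idx (q r : ℕ) : Type :=
  Σ p : ℕ × ℕ, (Fin (r + 1) → algebraicClosure ℚ ℂ) × Parameters q ×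
    (Fin p.2 → MvPolynomial (Fin p.1 × Bool) (Parameters q)) ×
    (Fin p.1 → Parameters q) × (Fin p.1 → Parameters q) × (Fin p.1 → ℕ) ×
    {Γ : Set ℂ // Γ.Finite ∧ ∀ γ ∈ Γ, γ ∈ {x : ℂ | IsAlgebraic ℚ x}}

theorem countable_idx (q r : ℕ) : Countable (Idx q r) := by
  have h0 := countable_alg
  have h1 := Pool.Agent.X134.Win.countable_mvPolynomial (Fin q) (algebraicClosure ℚ ℂ)
  have h2 : ∀ m : ℕ, Countable (MvPolynomial (Fin m × Bool) (Parameters q)) := fun m =>
    Pool.Agent.X134.Win.countable_mvPolynomial _ _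
  have h3 := Pool.Agent.X134.Win.countable_finsets (s := {x : ℂ | IsAlgebraic ℚ x})
    (Algebraic.countable ℚ ℂ)
  infer_instance

/-- the hypotheses for the data -/
def Hyp (q r : ℕ) (x : Idx q r) : Prop :=
  match x with
  | ⟨_, ω, h, V, a, g, w, _⟩ => ω 0 ≠ 0 ∧ Irreducible h ∧ GoodAlong h V ∧ (∀ i, 0 < w i) ∧
    (∀ i, ¬ h ∣ a i) ∧ (∀ i, ¬ h ∣ g i)

/-- the conclusion for the data -/
def Good (q r : ℕ) (x : Idx q r) (u : Fin q → Fin (r + 1) → ℤ) : Prop :=
  match x with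
  | ⟨_, ω, h, V, a, g, w, Γ⟩ => ZilberPink Γ.1 (scaledMember V a (fun i => h ^ w i * g i)
      (fun j => ∑ b, (ω b : ℂ) * (u j b : ℂ)))

end Proof

/-- **Theorem.** See the header. -/
theorem result :
    (∀ q r : ℕ, 0 < q → ∀ (v : ℕ → ℝ) (τ θ : ℝ),
      (∀ l, 1 ≤ v l) → 0 ≤ τ → ExpLe v τ → θ < 1 →
      ∃ E : Set (Fin q × Fin (r + 1) → ℝ),
        dimH E ≤ ENNReal.ofReal (((q : ℝ) * (r + 1) - 1 + τ) / (1 - θ)) ∧
        ∀ α : Fin q × Fin (r + 1) → ℝ, α ∉ E → AllMembers q r v α θ) ∧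
    (∀ b : ℝ, 0 < b → ExpLe (fun n : ℕ => ((n : ℝ) + 1) ^ b) (1 / b)) ∧
    (∀ b : ℝ, 1 < b → ExpLe (fun n : ℕ => b ^ n) 0) := by
  classical
  refine ⟨fun q r hq v τ θ hv hτ hE hθ => ?_, fun b hb => Pool.Agent.Y854.GM.expLe_pow b hb,
    fun b hb => Pool.Agent.Y854.GM.expLe_geom b hb⟩
  have hc0 := countable_alg
  have hc1 := Pool.Agent.X134.Win.countable_mvPolynomial (Fin q) (algebraicClosure ℚ ℂ)
  have hc2 := countable_idx q r
  have hs : (0 : ℝ) ≤ (q : ℝ) * (r + 1) - 1 := by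
    have h1 : (1 : ℝ) ≤ q := by exact_mod_cast hq
    have h2 : (0 : ℝ) ≤ r := Nat.cast_nonneg r
    nlinarith
  obtain ⟨E₁, hE1, hE2⟩ := Pool.Agent.X134.Win.membM_c (ι := Idx q r)
    (fun x u => Hyp q r x → Good q r x u) hs (by
      rintro ⟨⟨m, k⟩, ω, h, V, a, g, w, Γ⟩ ε hε
      by_cases hyp : Hyp q r ⟨(m, k), ω, h, V, a, g, w, Γ⟩
      · obtain ⟨h1, h2, h3, h4, h5, h6⟩ := id hyp
        obtain ⟨C, hC⟩ := curveNF ω h1 h h2 V h3 a g w h4 h5 h6 Γ.1 Γ.2.1 Γ.2.2 ε hε
        refine ⟨C, fun H hH => ?_⟩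
        have h10 : {u : Fin q → Fin (r + 1) → ℤ | (∀ j b, |u j b| ≤ H) ∧
            ¬ (Hyp q r ⟨(m, k), ω, h, V, a, g, w, Γ⟩ →
              Good q r ⟨(m, k), ω, h, V, a, g, w, Γ⟩ u)} =
            {u : Fin q → Fin (r + 1) → ℤ | ¬ ZilberPink Γ.1 (scaledMember V a
              (fun i => h ^ w i * g i) (fun j => ∑ b, (ω b : ℂ) * (u j b : ℂ)))} ∩
                {u | ∀ j b, |u j b| ≤ H} := by
          ext u
          exact ⟨fun hu => ⟨fun hg => hu.2 fun _ => hg, hu.1⟩, fun hu => ⟨hu.2, fun hg => hu.1 (hg hyp)⟩⟩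
        rw [h10]
        exact hC H hH
      · refine ⟨0, fun H _ => ?_⟩
        have h10 : {u : Fin q → Fin (r + 1) → ℤ | (∀ j b, |u j b| ≤ H) ∧
            ¬ (Hyp q r ⟨(m, k), ω, h, V, a, g, w, Γ⟩ →
              Good q r ⟨(m, k), ω, h, V, a, g, w, Γ⟩ u)} = ∅ :=
          Set.eq_empty_iff_forall_notMem.2 fun u hu => hu.2 fun h => absurd h hyp
        rw [h10, Set.ncard_empty, Nat.cast_zero, zero_mul]) hv hτ hE hθ
  obtain ⟨E₂, hE3, hE4⟩ := Pool.Agent.X134.Win.membM_c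
    (ι := (Fin (r + 1) → algebraicClosure ℚ ℂ) × Parameters q)
    (fun x (u : Fin q → Fin (r + 1) → ℤ) => x.1 0 ≠ 0 ∧ x.2 ≠ 0 →
      valueAt (fun j => ∑ b, (x.1 b : ℂ) * (u j b : ℂ)) x.2 ≠ 0) hs (by
      rintro ⟨ω, δ⟩ ε hε
      by_cases hyp : ω 0 ≠ 0 ∧ δ ≠ 0
      · obtain ⟨C, -, hC⟩ := zerosNF ω hyp.1 hyp.2 hε
        refine ⟨C, fun H hH => ?_⟩
        have h10 : {u : Fin q → Fin (r + 1) → ℤ | (∀ j b, |u j b| ≤ H) ∧
            ¬ (ω 0 ≠ 0 ∧ δ ≠ 0 → valueAt (fun j => ∑ b, (ω b : ℂ) * (u j b : ℂ)) δ ≠ 0)} =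
            {u : Fin q → Fin (r + 1) → ℤ | valueAt (fun j => ∑ b, (ω b : ℂ) * (u j b : ℂ)) δ = 0} ∩
              {u | ∀ j b, |u j b| ≤ H} := by
          ext u
          refine ⟨fun hu => ⟨?_, hu.1⟩, fun hu => ⟨hu.2, fun hg => hg hyp hu.1⟩⟩
          by_contra hne
          exact hu.2 fun _ => hne
        rw [h10]
        exact hC H hH
      · refine ⟨0, fun H _ => ?_⟩
        have h10 : {u : Fin q → Fin (r + 1) → ℤ | (∀ j b, |u j b| ≤ H) ∧
            ¬ (ω 0 ≠ 0 ∧ δ ≠ 0 → valueAt (fun j => ∑ b, (ω b : ℂ) * (u j b : ℂ)) δ ≠ 0)} = ∅ :=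
          Set.eq_empty_iff_forall_notMem.2 fun u hu => hu.2 fun h => absurd h hyp
        rw [h10, Set.ncard_empty, Nat.cast_zero, zero_mul]) hv hτ hE hθ
  refine ⟨E₁ ∪ E₂, by rw [dimH_union]; exact max_le hE1 hE3, fun α hα => ?_⟩
  intro n P ω hω δ hδ X hX h hirr m σ hσ hcover hdeg Γ hΓ hΓa
  obtain ⟨l₁, hl₁⟩ := hE4 α (fun h => hα (Or.inr h)) (ω, δ)
  choose k V a g w hV hw ha hg hsub using hdeg
  have hone : ∀ s, ∃ l₀ : ℕ, ∀ l : ℕ, l₀ ≤ l → ∀ u : Fin q → Fin (r + 1) → ℤ,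
      (∀ j b, |(u j b : ℝ) - α (j, b) * v l| ≤ (v l) ^ θ) →
        ZilberPink Γ (scaledMember (V s) (a s) (fun i => h s ^ w s i * g s i)
          (fun j => ∑ b, (ω b : ℂ) * (u j b : ℂ))) := by
    intro s
    obtain ⟨l₀, hl₀⟩ := hE2 α (fun h => hα (Or.inl h))
      ⟨(m s, k s), ω, h s, V s, a s, g s, w s, ⟨Γ, hΓ, hΓa⟩⟩
    exact ⟨l₀, fun l hl u hu => hl₀ l hl u hu ⟨hω, hirr s, hV s, hw s, ha s, hg s⟩⟩
  choose l₂ hl₂ using hone
  refine ⟨max l₁ (Finset.univ.sup l₂), fun l hl u hu => ?_⟩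
  have hd0 := hl₁ l (le_trans (le_max_left _ _) hl) u hu ⟨hω, hδ⟩
  refine zp_of_proj _ (hX _ hd0) m σ hσ hcover (fun s => scaledMember (V s) (a s)
    (fun i => h s ^ w s i * g s i) (fun j => ∑ b, (ω b : ℂ) * (u j b : ℂ))) (fun s => ?_)
    fun s x hx => hsub s _ hd0 x hx
  exact hl₂ s l (le_trans (Finset.le_sup (Finset.mem_univ s)) (le_trans (le_max_right _ _) hl)) u hu

end Pool.Agent.Results.MP_e573c6_ag.MembersInCubes
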