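import Pool.Agent.Results.MP_e573c6_ag.MembersInCubes
import Pool.Agent.X134.Win.MembN

/-!
# MP_e573c6_ag: the Zilber-Pink conjecture for all the members near generic targets, of all families of
curves in `Y(1)^n` which degenerate along divisors

Let `q ≥ 1` and `r` be fixed, `f` an arbitrary map of the integral `q × (r + 1)`-matrices to a metric
space `Y` (for example the embedding in the `p`-adic matrices, or in the product over several primes, or
the direction `u / |u|`, or these maps together) and `η₀ ≥ 0`.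

**Theorem.** There is one set `E ⊆ Y` of Hausdorff dimension at most `(q (r + 1) - 1) / η₀` (of
dimension zero if `q (r + 1) = 1`, also for `η₀ = 0`) such that for each target `y` outside of `E` the
following holds for all `η > η₀` and ALL families `X_t ⊂ Y(1)^n` (any `n`) of curves with `q`
parameters as in our `PartialNumberFields`: there are divisors `h_s = 0` over the algebraic numbers and
sets `I_s` of coordinates such that along `h_s = 0` the coordinates `x_i`, `i ∈ I_s`, tend to the cusp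
with arbitrary orders, the generic degenerate curve (after scaling) being in general position
(`DegeneratesOn`), and each set of at most four coordinates is contained in one of the `I_s` (for example
one divisor along which all coordinates tend to the cusp, or five divisors, along each of which another
coordinate can be finite); for ALL algebraic numbers `ω_0 ≠ 0, ω_1, …, ω_r` (for example the integral
bases of all number fields of degree `r + 1`): for all large `H`, for ALL integral matrices `u` with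
`|u| ≤ H` and `dist (f u) y ≤ H ^ (-η)` the curve `X_t` with the parameters `t_j = ∑_b ω_b u_{j b}`
satisfies the Zilber-Pink conjecture: it has only finitely many points on special subvarieties of
codimension at least two, and each proper special subvariety contains only finitely many of its points.

For example let `Y` be the space of the `p`-adic integral matrices, of dimension `D = q (r + 1)`, and
`1 - 1 / D < η₀ < η < 1`. Then `E` has dimension less than `D`, so it is a null set, and there are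
about `(2 H ^ (1 - η)) ^ D` integral matrices `u` with `|u| ≤ H` and `|u - y|_p ≤ H ^ (-η)`, all of them
without exception. There are uncountably many families `X_t`, but they are controlled by countably many
degenerating families. In our `MembersInCubes` the members lie in short cubes.
-/

set_option autoImplicit false

namespace Pool.Agent.Results.MP_e573c6_ag.MembersNearTargets

open MeasureTheory Pool.Agent.X295 Pool.Agent.X295.NF
open MembersInCubes (DegeneratesOn countable_alg Idx countable_idx Hyp Good)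

/-- for all families `X` with `q` parameters as in the theorem and all algebraic `ω`: for all large `H`
all members with integral parameter matrices `u` with `|u| ≤ H` and `dist (f u) y ≤ H ^ (-η)` satisfy the
Zilber-Pink conjecture -/
def AllMembers (q r : ℕ) {Y : Type} [MetricSpace Y] (f : (Fin q → Fin (r + 1) → ℤ) → Y) (y : Y)
    (η : ℝ) : Prop :=
  ∀ (n P : ℕ) (ω : Fin (r + 1) → algebraicClosure ℚ ℂ), ω 0 ≠ 0 → ∀
    (δ : Parameters q), δ ≠ 0 → ∀ (X : (Fin q → ℂ) → Set (Fin n → ℂ)),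
    (∀ t : Fin q → ℂ, valueAt t δ ≠ 0 → ∀ (i : Fin n) (c : ℂ), {x | x ∈ X t ∧ x i = c}.Finite) → ∀
    (h : Fin P → Parameters q), (∀ s, Irreducible (h s)) → ∀
    (m : Fin P → ℕ) (σ : ∀ s, Fin (m s) → Fin n), (∀ s, Function.Injective (σ s)) →
    (∀ J : Finset (Fin n), J.card ≤ 4 → ∃ s, ∀ i ∈ J, ∃ t, σ s t = i) →
    (∀ s, DegeneratesOn δ X (h s) (σ s)) → ∀
    (Γ : Set ℂ), Γ.Finite → (∀ γ ∈ Γ, IsAlgebraic ℚ γ) →
    ∃ H₀ : ℕ, ∀ H : ℕ, H₀ ≤ H → ∀ u : Fin q → Fin (r + 1) → ℤ,
      (∀ j b, |u j b| ≤ (H : ℤ)) → dist (f u) y ≤ (H : ℝ) ^ (-η) →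
        ZilberPink Γ (X (fun j => ∑ b, (ω b : ℂ) * (u j b : ℂ)))

/-- **Theorem.** See the header. -/
theorem result (q r : ℕ) (hq : 0 < q) (Y : Type) [MetricSpace Y]
    (f : (Fin q → Fin (r + 1) → ℤ) → Y) (η₀ : ℝ) (hη₀ : 0 ≤ η₀) :
    ∃ E : Set Y, dimH E ≤ ENNReal.ofReal ((q : ℝ) * (r + 1) - 1) / ENNReal.ofReal η₀ ∧
      ∀ y : Y, y ∉ E → ∀ η : ℝ, η₀ < η → AllMembers q r f y η := by
  classical
  have hc0 := countable_alg
  have hc1 := Pool.Agent.X134.Win.countable_mvPolynomial (Fin q) (algebraicClosure ℚ ℂ)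
  have hc2 := countable_idx q r
  have hs : (0 : ℝ) ≤ (q : ℝ) * (r + 1) - 1 := by
    have h1 : (1 : ℝ) ≤ q := by exact_mod_cast hq
    have h2 : (0 : ℝ) ≤ r := Nat.cast_nonneg r
    nlinarith
  obtain ⟨E₁, hE1, hE2⟩ := Pool.Agent.X134.Win.nearM_all (ι := Idx q r)
    (fun x u => Hyp q r x → Good q r x u) hs (by
      rintro ⟨⟨m, k⟩, ω, h, V, a, g, w, Γ⟩ ε hε
      by_cases hyp : Hyp q r ⟨(m, k), ω, h, V, a, g, w, Γ⟩
      · obtain ⟨h1, h2, h3, h4, h5, h6⟩ := id hyp
        obtain ⟨C, hC⟩ := curveNF ω h1 h h2 V h3 a g w h4 h5 h6 Γ.1 Γ.2.1 Γ.2.2 ε hε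
        refine ⟨C, fun H hH => ?_⟩
        have h10 : {u : Fin q → Fin (r + 1) → ℤ | (∀ j b, |u j b| ≤ H) ∧
            ¬ (Hyp q r ⟨(m, k), ω, h, V, a, g, w, Γ⟩ →
              Good q r ⟨(m, k), ω, h, V, a, g, w, Γ⟩ u)} =
            {u : Fin q → Fin (r + 1) → ℤ | ¬ ZilberPink Γ.1 (scaledMember V a
              (fun i => h ^ w i * g i) (fun j => ∑ b, (ω b : ℂ) * (u j b : ℂ)))} ∩
                {u | ∀ j b, |u j b| ≤ H} := by
          ext u
          exact ⟨fun hu => ⟨fun hg => hu.2 fun _ => hg, hu.1⟩, fun hu => ⟨hu.2, fun hg => hu.1 (hg hyp)⟩⟩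
        rw [h10]
        exact hC H hH
      · refine ⟨0, fun H _ => ?_⟩
        have h10 : {u : Fin q → Fin (r + 1) → ℤ | (∀ j b, |u j b| ≤ H) ∧
            ¬ (Hyp q r ⟨(m, k), ω, h, V, a, g, w, Γ⟩ →
              Good q r ⟨(m, k), ω, h, V, a, g, w, Γ⟩ u)} = ∅ :=
          Set.eq_empty_iff_forall_notMem.2 fun u hu => hu.2 fun h => absurd h hyp
        rw [h10, Set.ncard_empty, Nat.cast_zero, zero_mul]) f hη₀
  obtain ⟨E₂, hE3, hE4⟩ := Pool.Agent.X134.Win.nearM_all
    (ι := (Fin (r + 1) → algebraicClosure ℚ ℂ) × Parameters q)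
    (fun x (u : Fin q → Fin (r + 1) → ℤ) => x.1 0 ≠ 0 ∧ x.2 ≠ 0 →
      valueAt (fun j => ∑ b, (x.1 b : ℂ) * (u j b : ℂ)) x.2 ≠ 0) hs (by
      rintro ⟨ω, δ⟩ ε hε
      by_cases hyp : ω 0 ≠ 0 ∧ δ ≠ 0
      · obtain ⟨C, -, hC⟩ := zerosNF ω hyp.1 hyp.2 hε
        refine ⟨C, fun H hH => ?_⟩
        have h10 : {u : Fin q → Fin (r + 1) → ℤ | (∀ j b, |u j b| ≤ H) ∧
            ¬ (ω 0 ≠ 0 ∧ δ ≠ 0 → valueAt (fun j => ∑ b, (ω b : ℂ) * (u j b : ℂ)) δ ≠ 0)} =
            {u : Fin q → Fin (r + 1) → ℤ | valueAt (fun j => ∑ b, (ω b : ℂ) * (u j b : ℂ)) δ = 0} ∩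
              {u | ∀ j b, |u j b| ≤ H} := by
          ext u
          refine ⟨fun hu => ⟨?_, hu.1⟩, fun hu => ⟨hu.2, fun hg => hg hyp hu.1⟩⟩
          by_contra hne
          exact hu.2 fun _ => hne
        rw [h10]
        exact hC H hH
      · refine ⟨0, fun H _ => ?_⟩
        have h10 : {u : Fin q → Fin (r + 1) → ℤ | (∀ j b, |u j b| ≤ H) ∧
            ¬ (ω 0 ≠ 0 ∧ δ ≠ 0 → valueAt (fun j => ∑ b, (ω b : ℂ) * (u j b : ℂ)) δ ≠ 0)} = ∅ :=
          Set.eq_empty_iff_forall_notMem.2 fun u hu => hu.2 fun h => absurd h hyp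
        rw [h10, Set.ncard_empty, Nat.cast_zero, zero_mul]) f hη₀
  refine ⟨E₁ ∪ E₂, by rw [dimH_union]; exact max_le hE1 hE3, fun y hy η hη => ?_⟩
  intro n P ω hω δ hδ X hX h hirr m σ hσ hcover hdeg Γ hΓ hΓa
  obtain ⟨l₁, hl₁⟩ := hE4 y (fun h => hy (Or.inr h)) η hη (ω, δ)
  choose k V a g w hV hw ha hg hsub using hdeg
  have hone : ∀ s, ∃ H₀ : ℕ, ∀ H : ℕ, H₀ ≤ H → ∀ u : Fin q → Fin (r + 1) → ℤ,
      (∀ j b, |u j b| ≤ (H : ℤ)) → dist (f u) y ≤ (H : ℝ) ^ (-η) →
        ZilberPink Γ (scaledMember (V s) (a s) (fun i => h s ^ w s i * g s i)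
          (fun j => ∑ b, (ω b : ℂ) * (u j b : ℂ))) := by
    intro s
    obtain ⟨H₀, hH₀⟩ := hE2 y (fun h => hy (Or.inl h)) η hη
      ⟨(m s, k s), ω, h s, V s, a s, g s, w s, ⟨Γ, hΓ, hΓa⟩⟩
    exact ⟨H₀, fun H hH u hu hd => hH₀ H hH u hu hd ⟨hω, hirr s, hV s, hw s, ha s, hg s⟩⟩
  choose l₂ hl₂ using hone
  refine ⟨max l₁ (Finset.univ.sup l₂), fun H hH u hu hd => ?_⟩
  have hd0 := hl₁ H (le_trans (le_max_left _ _) hH) u hu hd ⟨hω, hδ⟩
  refine zp_of_proj _ (hX _ hd0) m σ hσ hcover (fun s => scaledMember (V s) (a s)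
    (fun i => h s ^ w s i * g s i) (fun j => ∑ b, (ω b : ℂ) * (u j b : ℂ))) (fun s => ?_)
    fun s x hx => hsub s _ hd0 x hx
  exact hl₂ s H (le_trans (Finset.le_sup (Finset.mem_univ s)) (le_trans (le_max_right _ _) hH)) u hu hd

end Pool.Agent.Results.MP_e573c6_ag.MembersNearTargets
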