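import Pool.Agent.X295.GenNF

/-!
# MP_e573c6_ag: Zilber-Pink for almost all the members, over a number field, of families of curves in
`Y(1)^n` with any number of parameters which degenerate along one hypersurface

`Y(1)^n` is identified with `ℂ^n` by the elliptic modular function `jj = j = E₄³ / Δ`. A special
subvariety of `Y(1)^n` of dimension `r` is given by a `SpecialVariety`: its points are the points
`x` with `x_i = const_i` for the constant coordinates, and `x_i = j (g_i z_l)` for the coordinates of
class `l`, `z_1, …, z_r` free in the upper half plane and `g_i` a fixed integral matrix of positive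
determinant. In the definition of special subvarieties the constants are values of `j` at CM points.
We allow also all constants which are integral over the ring generated by a given finite set `Γ` of
algebraic numbers.

**Families of curves.** Let `F_l` be finitely many forms in the homogeneous coordinates
`(X_1, Z_1), …, (X_n, Z_n)` of `(P¹)^n`, whose coefficients are polynomials in the parameters
`t_1, …, t_q` over the field of the algebraic numbers. They define an algebraic family of subschemes
`V_t` of `(P¹)^n`. Let `X_t ⊂ Y(1)^n` be the set of all `x` with
`h (t) ^ w_i g_i (t) x_i = a_i (t) y_i`, `y ∈ V_t ∩ ℂ^n` (`scaledMember`), where `h` is an irreducible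
polynomial in `t` over the algebraic numbers, the `a_i` and `g_i` are polynomials over the algebraic
numbers which are not divisible by `h`, and `w_i > 0`. So the factors `a_i / (h ^ w_i g_i)` are any
rational functions of `t` with poles of arbitrary orders `w_i` along the hypersurface `h = 0`, and the
curves `X_t` tend to the cusp `(∞, …, ∞)` if `t` tends to this hypersurface. We assume that the
generic member of the family `V_t` over the hypersurface `h = 0` is a curve in general position
(`GoodAlong`):

* it is geometrically integral: for all algebraically closed fields `k` and all homomorphisms `π` from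
  the ring of the polynomials in `t` to `k` with the kernel `(h)`, the ideals in the affine charts
  `Z_1 = … = Z_n = 1` and `X_b = 1`, `Z_i = 1` for `i ≠ b` are prime ideals, and the coordinates `x_i`
  are not constant;
* for `i ≠ j` the ideal generated by the `F_l` contains a form
  `∑_{u ≤ a, v ≤ b} g_{uv} X_i ^ u Z_i ^ (a - u) X_j ^ v Z_j ^ (b - v)`, where `g_{00}, g_{a0}, g_{0b},
  g_{ab}` are not divisible by `h`, and where the form over `k` is not divisible by a form
  `X_i - c Z_i`. So the zeros and poles of `x_i` on the generic member are different from those of
  `x_j`, and it is a curve (for `n ≥ 2`) which is covered by the charts.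

There is no condition on single members `V_t`, also not on the members over `h = 0`, which may be
singular or reducible, of any genus, and have varying moduli.

**Theorem.** Let `ω_0 ≠ 0, ω_1, …, ω_r` be algebraic numbers, for example an integral basis of a number
field `E`, `[E : ℚ] = r + 1`. For all `ε > 0` and for all but `O(H^(q (r + 1) - 1 + ε))` of the integral
`u = (u_{j b})` with `|u_{j b}| ≤ H` the curve `X_t` with the parameters `t_j = ∑_b ω_b u_{j b}`
satisfies the Zilber-Pink conjecture:

* there are only finitely many points of `X_t` on special subvarieties of codimension at least two,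
* each proper special subvariety of `Y(1)^n` contains only finitely many points of `X_t`.

So it holds for one hundred percent of the `t ∈ O_E^q`, for every number field `E`, with a power
saving. The points `t` of `P^(q - 1)(E)` are included (homogeneous coordinates in `O_E`).

**Earlier results.** `MP_d83ecd_ag/OneDegenerateDivisor` (ours) is the theorem for integral vectors
`t ∈ ℤ^q` and a hypersurface `h = 0` defined over `ℤ`, irreducible over `ℂ`. A hypersurface over a
number field cannot be treated by restriction of scalars in that theorem: its norm is not
irreducible over `ℂ`, and the family need not degenerate along the conjugate hypersurfaces. The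
starting files on curves treat families near one fixed curve in general position, and one parameter.
New are here: the places above the prime factors of the norm of `h (t)` at which `h (t)` itself is
small, with automorphisms of the field of the algebraic numbers; elimination over the algebraic
numbers; and the fact that the orders of the elements of a finitely generated ring of algebraic
numbers at the places over large primes `p` are integral multiples of the order of `p`, in the form
`φ (x) = p ^ v m` with an almost unramified unit `m`, which is needed for the local theorem of the
starting file `Pool.Agent.Y92.ZX.Core` (`X295/Ord`: the closure of the ring generated by `θ` in the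
local field, with the Frobenius congruence `θ ^ (p ^ f) = θ + p r (θ)`).
-/

set_option autoImplicit false

namespace Pool.Agent.Results.MP_e573c6_ag.NumberFieldFamilies

open Pool.Agent.X295.NF

/-- The Zilber-Pink conjecture for the members with parameters in a lattice of algebraic numbers of
families of curves with `q` parameters which degenerate along one hypersurface to curves in general
position. -/
theorem result {n q r : ℕ} {κ : Type} [Finite κ] (ω : Fin (r + 1) → algebraicClosure ℚ ℂ)
    (hω0 : ω 0 ≠ 0) (h : Parameters q) (hirr : Irreducible h)
    (F : κ → MvPolynomial (Fin n × Bool) (Parameters q)) (hF : GoodAlong h F)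
    (a g : Fin n → Parameters q) (w : Fin n → ℕ) (hw : ∀ i, 0 < w i)
    (ha : ∀ i, ¬ h ∣ a i) (hg : ∀ i, ¬ h ∣ g i)
    (Γ : Set ℂ) (hΓ : Γ.Finite) (hΓa : ∀ γ ∈ Γ, IsAlgebraic ℚ γ) (ε : ℝ) (hε : 0 < ε) :
    ∃ C : ℝ, ∀ H : ℕ, 1 ≤ H →
      ({u : Fin q → Fin (r + 1) → ℤ | (∀ j b, |u j b| ≤ H) ∧ ¬ ZilberPink Γ (scaledMember F a
        (fun i => h ^ w i * g i) (fun j => ∑ b, (ω b : ℂ) * (u j b : ℂ)))}.ncard : ℝ) ≤
          C * (H : ℝ) ^ ((q : ℝ) * (r + 1) - 1 + ε) := by
  obtain ⟨C, hC⟩ := curveNF ω hω0 h hirr F hF a g w hw ha hg Γ hΓ hΓa ε hε
  refine ⟨C, fun H hH => ?_⟩
  have h1 : {u : Fin q → Fin (r + 1) → ℤ | (∀ j b, |u j b| ≤ H) ∧ ¬ ZilberPink Γ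
        (scaledMember F a (fun i => h ^ w i * g i) (fun j => ∑ b, (ω b : ℂ) * (u j b : ℂ)))} =
      {u : Fin q → Fin (r + 1) → ℤ | ¬ ZilberPink Γ (scaledMember F a (fun i => h ^ w i * g i)
        (fun j => ∑ b, (ω b : ℂ) * (u j b : ℂ)))} ∩ {u | ∀ j b, |u j b| ≤ H} := by
    ext u
    exact and_comm
  rw [h1]
  exact hC H hH

end Pool.Agent.Results.MP_e573c6_ag.NumberFieldFamilies
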