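import Pool.Agent.X295.PartNF

/-!
# MP_e573c6_ag: the Zilber-Pink conjecture for one hundred percent of the members over a number field of
families of curves in `Y(1)^n` whose coordinates never degenerate all together

The Shimura variety `Y(1)^n` is identified with `ℂ^n` by the elliptic modular function
`jj = j = E₄³ / Δ`. A special subvariety is given by a `SpecialVariety Γ n r`: the constant coordinates
are singular moduli or integral over the ring generated by a finite set `Γ` of algebraic numbers, and the
other coordinates are `j (g_i z_l)`, with integral matrices `g_i` of positive determinant.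

Let `X_t ⊂ Y(1)^n` be a family of curves with the parameters `t = (t_1, …, t_q)` (any family of sets such
that for `δ (t) ≠ 0`, where `δ` is a fixed polynomial `≠ 0` with algebraic coefficients, no value of a
coordinate is taken infinitely often on `X_t`, for example an algebraic family of curves without
constant coordinates). Let `h_1, …, h_P` be irreducible polynomials in `t` over the algebraic numbers,
and `I_1, …, I_P` proper subsets of the set of the coordinates, and suppose that along `h_s = 0` the
coordinates `x_i`, `i ∈ I_s`, tend to the cusp (`DegeneratesOn`): for all `t` with `δ (t) ≠ 0` the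
projection of `X_t` to the coordinates in `I_s` is contained in
`{x | h_s (t)^(w_i) g_i (t) x_i = a_i (t) y_i, y ∈ V_t}` with exponents `w_i > 0`, polynomials `a_i`,
`g_i` which are not divisible by `h_s`, and a family `V_t ⊂ (P¹)^(I_s)` given by forms whose coefficients
are polynomials in `t` over the algebraic numbers, whose generic member over the hypersurface `h_s = 0`
is a geometrically integral curve in general position (nonconstant coordinates, disjoint zeros and poles:
`GoodAlong`). Nothing is assumed on the other coordinates; they can be finite along `h_s = 0`, or have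
zeros and poles at arbitrary points.

**Theorem.** Suppose that each set of at most four coordinates is contained in one of the proper subsets
`I_s` (for example `P = 5`, and the `I_s` are the complements of five different coordinates). Let
`ω_0 ≠ 0, ω_1, …, ω_r` be algebraic numbers, for example an integral basis of a number field `E`. For
each `ε > 0`, for all but `O(H^(q (r + 1) - 1 + ε))` of the integral `u = (u_{j b})` with `|u_{j b}| ≤ H`
the curve `X_t` with the parameters `t_j = ∑_b ω_b u_{j b}` (for almost all `t` in `O_E^q`) has only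
finitely many points on special subvarieties of codimension at least two, and each proper special
subvariety contains only finitely many of its points.

**New.** Our `MP_d83ecd_ag/PartialDegeneration` has polynomials `h_s` with integral coefficients and
integral parameters; in the starting files and in our `MP_e573c6_ag/NumberFieldFamilies` all coordinates
tend to the cusp along one divisor. In our `MP_22337f_ag/PartialDegenerations` (any dimension) there are
at least `m + 2 = 3` divisors for each `I_s`, with independent orders; here one divisor for each `I_s` and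
arbitrary orders are sufficient.
-/

set_option autoImplicit false

namespace Pool.Agent.Results.MP_e573c6_ag.PartialNumberFields

open Pool.Agent.X295 Pool.Agent.X295.NF

/-- The coordinates `x_{σ 0}, x_{σ 1}, …` of the family `X_t` tend to the cusp along the divisor
`h = 0`, and the generic degenerate curve (after scaling) is in general position. -/
def DegeneratesOn {n m q : ℕ} (δ : Parameters q) (X : (Fin q → ℂ) → Set (Fin n → ℂ))
    (h : Parameters q) (σ : Fin m → Fin n) : Prop :=
  ∃ (κ : Type) (_ : Finite κ) (V : κ → MvPolynomial (Fin m × Bool) (Parameters q))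
    (a g : Fin m → Parameters q) (w : Fin m → ℕ),
    GoodAlong h V ∧ (∀ i, 0 < w i) ∧ (∀ i, ¬ h ∣ a i) ∧ (∀ i, ¬ h ∣ g i) ∧
    ∀ t : Fin q → ℂ, valueAt t δ ≠ 0 → ∀ x ∈ X t,
      (fun i => x (σ i)) ∈ scaledMember V a (fun i => h ^ w i * g i) t

/-- The Zilber-Pink conjecture for almost all members over a number field of families of curves in
`Y(1)^n` along whose divisors `h_s = 0` only the coordinates in proper subsets `I_s` tend to the cusp,
where each set of at most four coordinates is in one of the `I_s`. -/
theorem result {n q r P : ℕ} (ω : Fin (r + 1) → algebraicClosure ℚ ℂ) (hω0 : ω 0 ≠ 0)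
    (δ : Parameters q) (hδ : δ ≠ 0) (X : (Fin q → ℂ) → Set (Fin n → ℂ))
    (hX : ∀ t : Fin q → ℂ, valueAt t δ ≠ 0 → ∀ (i : Fin n) (c : ℂ),
      {x | x ∈ X t ∧ x i = c}.Finite)
    (h : Fin P → Parameters q) (hirr : ∀ s, Irreducible (h s))
    (m : Fin P → ℕ) (_hm : ∀ s, m s < n) (σ : ∀ s, Fin (m s) → Fin n)
    (hσ : ∀ s, Function.Injective (σ s))
    (hcover : ∀ J : Finset (Fin n), J.card ≤ 4 → ∃ s, ∀ i ∈ J, ∃ t, σ s t = i)
    (hdeg : ∀ s, DegeneratesOn δ X (h s) (σ s))
    (Γ : Set ℂ) (hΓ : Γ.Finite) (hΓa : ∀ γ ∈ Γ, IsAlgebraic ℚ γ) (ε : ℝ) (hε : 0 < ε) :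
    ∃ C : ℝ, ∀ H : ℕ, 1 ≤ H →
      ({u : Fin q → Fin (r + 1) → ℤ | (∀ j b, |u j b| ≤ H) ∧
        ¬ ZilberPink Γ (X (fun j => ∑ b, (ω b : ℂ) * (u j b : ℂ)))}.ncard : ℝ) ≤
          C * (H : ℝ) ^ ((q : ℝ) * (r + 1) - 1 + ε) := by
  choose κ hκ V a g w hV hw ha hg hsub using hdeg
  refine count_cover {u | ¬ ZilberPink Γ (X (fun j => ∑ b, (ω b : ℂ) * (u j b : ℂ)))}
    {u | valueAt (fun j => ∑ b, (ω b : ℂ) * (u j b : ℂ)) δ = 0}
    (fun s => {u | ¬ ZilberPink Γ (scaledMember (V s) (a s) (fun i => h s ^ w s i * g s i)
        (fun j => ∑ b, (ω b : ℂ) * (u j b : ℂ)))}) ?_ _ (zerosNF ω hω0 hδ hε)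
    (fun s => curveNF ω hω0 (h s) (hirr s) (V s) (hV s) (a s) (g s) (w s) (hw s) (ha s) (hg s)
      Γ hΓ hΓa ε hε)
  intro u hu
  by_cases h0 : valueAt (fun j => ∑ b, (ω b : ℂ) * (u j b : ℂ)) δ = 0
  · exact Or.inl h0
  · right
    by_contra hcon
    apply hu
    refine zp_of_proj _ (hX _ h0) m σ hσ hcover (fun s => scaledMember (V s) (a s)
      (fun i => h s ^ w s i * g s i) (fun j => ∑ b, (ω b : ℂ) * (u j b : ℂ))) (fun s => ?_)
      fun s x hx => hsub s _ h0 x hx
    by_contra hs
    exact hcon (Set.mem_iUnion.2 ⟨s, hs⟩)

end Pool.Agent.Results.MP_e573c6_ag.PartialNumberFields
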